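import Pool.Agent.H474.RZ.Stm

set_option autoImplicit false

open MeasureTheory Filter Topology Set

namespace Pool.Agent.H396.RZ

/-- part of a nonnegative integral -/
theorem part_le {f : ℝ → ℝ} (hf : Integrable f) (h0 : ∀ x, 0 ≤ f x) {a b : ℝ} (hab : a ≤ b) :
    ∫ x in a..b, f x ≤ ∫ x, f x := by
  rw [intervalIntegral.integral_of_le hab]
  exact setIntegral_le_integral hf (Eventually.of_forall h0)

theorem primitive_cont {G : ℝ → ℝ} (hG : Continuous G) (H : ℝ) :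
    Continuous fun x => ∫ u in x..(x + H), G u := by
  have h1 : Continuous fun x => ∫ u in (0:ℝ)..x, G u :=
    intervalIntegral.continuous_primitive (fun a b => hG.intervalIntegrable a b) 0
  have e : (fun x => ∫ u in x..(x + H), G u) =
      fun x => (∫ u in (0:ℝ)..(x + H), G u) - ∫ u in (0:ℝ)..x, G u := by
    funext x
    rw [intervalIntegral.integral_interval_sub_left (hG.intervalIntegrable _ _)
      (hG.intervalIntegrable _ _)]
  rw [e]
  exact (h1.comp (by fun_prop : Continuous fun x : ℝ => x + H)).sub h1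

theorem windows {f : ℝ → ℝ} (hf : Continuous f) (t H : ℝ) (M : ℕ) :
    ∑ i ∈ Finset.range M, ∫ x in (t + ((i : ℝ) + 1) * H)..(t + ((i : ℝ) + 2) * H), f x =
      ∫ x in (t + H)..(t + ((M : ℝ) + 1) * H), f x := by
  have h := intervalIntegral.sum_integral_adjacent_intervals (f := f) (μ := volume)
    (a := fun i : ℕ => t + ((i : ℝ) + 1) * H) (n := M) (fun k _ => hf.intervalIntegrable _ _)
  simp only [Nat.cast_add, Nat.cast_one, Nat.cast_zero, zero_add, one_mul] at h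
  rw [← h]
  refine Finset.sum_congr rfl fun i _ => ?_
  rw [show (i : ℝ) + 1 + 1 = (i : ℝ) + 2 by ring]

/-- choice of the offset -/
theorem offset {f : ℝ → ℝ} (hf : Continuous f) (hfi : Integrable f) (h0 : ∀ x, 0 ≤ f x)
    {H EI : ℝ} (hH : 0 < H) (hE : (∫ x, f x) ≤ EI) (M : ℕ) :
    ∃ t : ℝ, 0 ≤ t ∧ t ≤ H ∧ ∑ i ∈ Finset.range M, f (t + ((i : ℝ) + 1) * H) ≤ EI / H := by
  have hc : Continuous fun t => ∑ i ∈ Finset.range M, f (t + ((i : ℝ) + 1) * H) := by
    refine continuous_finsetSum _ fun i _ => hf.comp (by fun_prop)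
  obtain ⟨t, ht, hmin⟩ := isCompact_Icc.exists_isMinOn (nonempty_Icc.2 hH.le) hc.continuousOn
  refine ⟨t, ht.1, ht.2, ?_⟩
  rw [le_div_iff₀ hH]
  have h1 : (∑ i ∈ Finset.range M, f (t + ((i : ℝ) + 1) * H)) * H =
      ∫ _ in (0:ℝ)..H, (∑ i ∈ Finset.range M, f (t + ((i : ℝ) + 1) * H)) := by
    rw [intervalIntegral.integral_const]
    simp [mul_comm]
  have h2 : (∫ _ in (0:ℝ)..H, (∑ i ∈ Finset.range M, f (t + ((i : ℝ) + 1) * H))) ≤
      ∫ s in (0:ℝ)..H, ∑ i ∈ Finset.range M, f (s + ((i : ℝ) + 1) * H) := by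
    refine intervalIntegral.integral_mono_on hH.le ?_ (hc.intervalIntegrable _ _) ?_
    · exact continuous_const.intervalIntegrable _ _
    · intro x hx
      exact hmin hx
  have h3 : (∫ s in (0:ℝ)..H, ∑ i ∈ Finset.range M, f (s + ((i : ℝ) + 1) * H)) =
      ∫ x in (0 + H)..(0 + ((M : ℝ) + 1) * H), f x := by
    rw [← windows hf 0 H M, intervalIntegral.integral_finsetSum]
    · refine Finset.sum_congr rfl fun i _ => ?_
      rw [intervalIntegral.integral_comp_add_right (fun x => f x)]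
      rw [show (0 : ℝ) + ((i : ℝ) + 2) * H = H + ((i : ℝ) + 1) * H by ring]
    · intro i _
      exact (hf.comp (by fun_prop : Continuous fun s : ℝ => s + ((i : ℝ) + 1) * H)).intervalIntegrable _ _
  have h4 : (∫ x in (0 + H)..(0 + ((M : ℝ) + 1) * H), f x) ≤ ∫ x, f x := by
    refine part_le hfi h0 ?_
    have : (0:ℝ) ≤ M * H := by positivity
    linarith
  rw [h1]
  linarith [h3 ▸ h4]

theorem amgm {a x : ℝ} (ha : 0 < a) : |x| ≤ (a + x ^ 2 / a) / 2 := by
  have h : 0 ≤ (|x| - a) ^ 2 / a := by positivity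
  have e : (|x| - a) ^ 2 / a = x ^ 2 / a - 2 * |x| + a := by
    rw [sub_sq, sq_abs]
    field_simp
  linarith

theorem three {a x : ℝ} (ha : 0 < a) : x ^ 2 ≤ a * |x| + x ^ 4 / a ^ 2 := by
  rcases le_total |x| a with h | h
  · have h1 : x ^ 2 ≤ a * |x| := by
      rw [← sq_abs, sq]
      exact mul_le_mul_of_nonneg_right h (abs_nonneg x)
    have h2 : 0 ≤ x ^ 4 / a ^ 2 := by positivity
    linarith
  · have h1 : x ^ 2 ≤ x ^ 4 / a ^ 2 := by
      rw [le_div_iff₀ (by positivity)]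
      have h3 : a ^ 2 ≤ x ^ 2 := by
        rw [← sq_abs x]
        exact pow_le_pow_left₀ ha.le h 2
      nlinarith [sq_nonneg x]
    have h2 : 0 ≤ a * |x| := by positivity
    linarith

/-- windows on which `G` has a constant sign -/
theorem sign_abs {G : ℝ → ℝ} {a b : ℝ} (hab : a ≤ b)
    (h : (∀ x ∈ Icc a b, 0 ≤ G x) ∨ ∀ x ∈ Icc a b, G x ≤ 0) :
    ∫ x in a..b, |G x| = |∫ x in a..b, G x| := by
  rcases h with h | h
  · have e : ∫ x in a..b, |G x| = ∫ x in a..b, G x := by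
      refine intervalIntegral.integral_congr fun x hx => ?_
      rw [uIcc_of_le hab] at hx
      exact abs_of_nonneg (h x hx)
    rw [e, abs_of_nonneg]
    exact intervalIntegral.integral_nonneg hab h
  · have e : ∫ x in a..b, |G x| = -∫ x in a..b, G x := by
      rw [← intervalIntegral.integral_neg]
      refine intervalIntegral.integral_congr fun x hx => ?_
      rw [uIcc_of_le hab] at hx
      exact abs_of_nonpos (h x hx)
    rw [e]
    have h2 : ∫ x in a..b, G x ≤ 0 := by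
      have h3 : 0 ≤ ∫ x in a..b, |G x| := intervalIntegral.integral_nonneg hab fun x _ => abs_nonneg _
      linarith
    rw [abs_of_nonpos h2]

theorem abs_le_int {G : ℝ → ℝ} (hG : Continuous G) {a b A : ℝ} (hab : a ≤ b) (hA : 0 < A) :
    ∫ x in a..b, |G x| ≤ ((b - a) * A + (∫ x in a..b, G x ^ 2) / A) / 2 := by
  have h1 : ∫ x in a..b, |G x| ≤ ∫ x in a..b, (A + G x ^ 2 / A) / 2 := by
    refine intervalIntegral.integral_mono_on hab (hG.abs.intervalIntegrable _ _) ?_ ?_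
    · exact Continuous.intervalIntegrable (by fun_prop) _ _
    · intro x _
      exact amgm hA
  refine h1.trans (le_of_eq ?_)
  rw [intervalIntegral.integral_div, intervalIntegral.integral_add, intervalIntegral.integral_div,
    intervalIntegral.integral_const, smul_eq_mul]
  · exact continuous_const.intervalIntegrable _ _
  · exact Continuous.intervalIntegrable (by fun_prop) _ _

open Classical in
theorem core {G : ℝ → ℝ} (hG : Continuous G) (h2 : Integrable fun x => G x ^ 2)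
    (h4 : Integrable fun x => G x ^ 4) {H X e0 E2 E4 EI A A' A0 : ℝ} {M : ℕ} (hH : 0 < H)
    (hX : 0 < X) (hXM : X ≤ M * H) (hI : Integrable fun x => (∫ u in x..(x + H), G u) ^ 2)
    (b0 : e0 ≤ ∫ x in (0:ℝ)..X, G x ^ 2) (b2 : (∫ x, G x ^ 2) ≤ E2) (b4 : (∫ x, G x ^ 4) ≤ E4)
    (bI : (∫ x, (∫ u in x..(x + H), G u) ^ 2) ≤ EI) (hA : 0 < A) (hA' : 0 < A') (hA0 : 0 < A0) :
    ∃ (t : ℝ) (B : Finset ℕ), 0 ≤ t ∧ t ≤ H ∧ (∀ i ∈ B, i < M) ∧
      (∀ i ∈ B, ∃ p ∈ Icc (t + ((i : ℝ) + 1) * H) (t + ((i : ℝ) + 2) * H),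
        ∃ q ∈ Icc (t + ((i : ℝ) + 1) * H) (t + ((i : ℝ) + 2) * H), G p < 0 ∧ 0 < G q) ∧
      (e0 - E4 / A ^ 2) / A ≤ (2 * H * A0 + E2 / A0) / 2 + (M * A' + EI / H / A') / 2 +
        (B.card * (H * A') + E2 / A') / 2 := by
  obtain ⟨I, hIdef⟩ : ∃ I : ℝ → ℝ, I = fun x => ∫ u in x..(x + H), G u := ⟨_, rfl⟩
  have hIc : Continuous I := by rw [hIdef]; exact primitive_cont hG H
  obtain ⟨t, ht0, htH, hsum⟩ := offset (f := fun x => I x ^ 2) (hIc.pow 2) (by rw [hIdef]; exact hI)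
    (fun x => sq_nonneg _) hH (EI := EI) (by rw [hIdef]; exact bI) M
  obtain ⟨bad, hbad⟩ : ∃ bad : ℕ → Prop, bad = fun i : ℕ =>
      ∃ p ∈ Icc (t + ((i : ℝ) + 1) * H) (t + ((i : ℝ) + 2) * H),
        ∃ q ∈ Icc (t + ((i : ℝ) + 1) * H) (t + ((i : ℝ) + 2) * H), G p < 0 ∧ 0 < G q := ⟨_, rfl⟩
  refine ⟨t, (Finset.range M).filter bad, ht0, htH, ?_, ?_, ?_⟩
  · intro i hi
    exact Finset.mem_range.1 (Finset.mem_filter.1 hi).1
  · intro i hi
    have := (Finset.mem_filter.1 hi).2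
    rw [hbad] at this
    exact this
  -- lower bound for the integral of `|G|`
  have s1 : (e0 - E4 / A ^ 2) / A ≤ ∫ x in (0:ℝ)..X, |G x| := by
    rw [div_le_iff₀ hA]
    have h5 : ∫ x in (0:ℝ)..X, G x ^ 2 ≤ ∫ x in (0:ℝ)..X, (A * |G x| + G x ^ 4 / A ^ 2) := by
      refine intervalIntegral.integral_mono_on hX.le ?_ ?_ fun x _ => three hA
      · exact Continuous.intervalIntegrable (by fun_prop) _ _
      · exact Continuous.intervalIntegrable (by fun_prop) _ _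
    rw [intervalIntegral.integral_add, intervalIntegral.integral_const_mul,
      intervalIntegral.integral_div] at h5
    · have h6 : ∫ x in (0:ℝ)..X, G x ^ 4 ≤ E4 :=
        (part_le h4 (fun x => by positivity) hX.le).trans b4
      have h7 : (∫ x in (0:ℝ)..X, G x ^ 4) / A ^ 2 ≤ E4 / A ^ 2 :=
        div_le_div_of_nonneg_right h6 (by positivity)
      linarith
    · exact Continuous.intervalIntegrable (by fun_prop) _ _
    · exact Continuous.intervalIntegrable (by fun_prop) _ _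
  have hnn : ∀ a b : ℝ, a ≤ b → 0 ≤ ∫ x in a..b, |G x| := fun a b hab =>
    intervalIntegral.integral_nonneg hab fun x _ => abs_nonneg _
  have hadd : ∀ a b c : ℝ, (∫ x in a..b, |G x|) + (∫ x in b..c, |G x|) = ∫ x in a..c, |G x| :=
    fun a b c => intervalIntegral.integral_add_adjacent_intervals
      (hG.abs.intervalIntegrable _ _) (hG.abs.intervalIntegrable _ _)
  have hMH : 0 ≤ (M : ℝ) * H := by positivity
  have s2 : ∫ x in (0:ℝ)..X, |G x| ≤ (∫ x in (0:ℝ)..(2 * H), |G x|) +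
      ∫ x in (t + H)..(t + ((M : ℝ) + 1) * H), |G x| := by
    have e1 := hadd 0 X (t + ((M : ℝ) + 1) * H)
    have e2 := hadd 0 (t + H) (t + ((M : ℝ) + 1) * H)
    have e3 := hadd 0 (t + H) (2 * H)
    have n1 := hnn X (t + ((M : ℝ) + 1) * H) (by linarith)
    have n2 := hnn (t + H) (2 * H) (by linarith)
    linarith
  have s3 : ∫ x in (0:ℝ)..(2 * H), |G x| ≤ (2 * H * A0 + E2 / A0) / 2 := by
    have h5 := abs_le_int hG (a := 0) (b := 2 * H) (by linarith) hA0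
    have h6 : ∫ x in (0:ℝ)..(2 * H), G x ^ 2 ≤ E2 :=
      (part_le h2 (fun x => by positivity) (by linarith)).trans b2
    have h7 : (∫ x in (0:ℝ)..(2 * H), G x ^ 2) / A0 ≤ E2 / A0 :=
      div_le_div_of_nonneg_right h6 hA0.le
    rw [sub_zero] at h5
    linarith
  -- the windows
  have hw : ∀ i : ℕ, t + ((i : ℝ) + 1) * H ≤ t + ((i : ℝ) + 2) * H := fun i => by linarith
  have s4 : ∫ x in (t + H)..(t + ((M : ℝ) + 1) * H), |G x| ≤
      ∑ i ∈ Finset.range M, (A' + I (t + ((i : ℝ) + 1) * H) ^ 2 / A') / 2 +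
      ∑ i ∈ (Finset.range M).filter bad,
        (H * A' + (∫ x in (t + ((i : ℝ) + 1) * H)..(t + ((i : ℝ) + 2) * H), G x ^ 2) / A') / 2 := by
    rw [← windows hG.abs t H M, Finset.sum_filter, ← Finset.sum_add_distrib]
    refine Finset.sum_le_sum fun i _ => ?_
    have hp1 : 0 ≤ (A' + I (t + ((i : ℝ) + 1) * H) ^ 2 / A') / 2 := by positivity
    split_ifs with hb
    · have h5 := abs_le_int hG (hw i) hA'
      rw [show t + ((i : ℝ) + 2) * H - (t + ((i : ℝ) + 1) * H) = H by ring] at h5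
      linarith
    · rw [add_zero, sign_abs (hw i)]
      · have h5 : ∫ x in (t + ((i : ℝ) + 1) * H)..(t + ((i : ℝ) + 2) * H), G x =
            I (t + ((i : ℝ) + 1) * H) := by
          rw [hIdef, show t + ((i : ℝ) + 2) * H = t + ((i : ℝ) + 1) * H + H by ring]
        rw [h5]
        exact amgm hA'
      · by_contra hcon
        push Not at hcon
        obtain ⟨⟨p, hp, hp1⟩, ⟨q, hq, hq1⟩⟩ := hcon
        apply hb
        rw [hbad]
        exact ⟨p, hp, q, hq, hp1, hq1⟩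
  have s5 : ∑ i ∈ Finset.range M, (A' + I (t + ((i : ℝ) + 1) * H) ^ 2 / A') / 2 ≤
      (M * A' + EI / H / A') / 2 := by
    rw [← Finset.sum_div, Finset.sum_add_distrib, Finset.sum_const, Finset.card_range,
      nsmul_eq_mul, ← Finset.sum_div]
    have h5 : (∑ i ∈ Finset.range M, I (t + ((i : ℝ) + 1) * H) ^ 2) / A' ≤ EI / H / A' :=
      div_le_div_of_nonneg_right hsum hA'.le
    linarith
  have s6 : ∑ i ∈ (Finset.range M).filter bad,
        (H * A' + (∫ x in (t + ((i : ℝ) + 1) * H)..(t + ((i : ℝ) + 2) * H), G x ^ 2) / A') / 2 ≤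
      (((Finset.range M).filter bad).card * (H * A') + E2 / A') / 2 := by
    rw [← Finset.sum_div, Finset.sum_add_distrib, Finset.sum_const, nsmul_eq_mul, ← Finset.sum_div]
    have h5 : ∑ i ∈ (Finset.range M).filter bad,
        (∫ x in (t + ((i : ℝ) + 1) * H)..(t + ((i : ℝ) + 2) * H), G x ^ 2) ≤ E2 := by
      refine (Finset.sum_le_sum_of_subset_of_nonneg (Finset.filter_subset _ _) ?_).trans ?_
      · intro i _ _
        exact intervalIntegral.integral_nonneg (hw i) fun x _ => by positivity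
      · rw [windows (f := fun x => G x ^ 2) (hG.pow 2) t H M]
        exact (part_le h2 (fun x => by positivity) (by linarith)).trans b2
    have h6 := div_le_div_of_nonneg_right h5 hA'.le
    linarith
  linarith

end Pool.Agent.H396.RZ

open MeasureTheory Filter Topology Set
open Pool.Agent.H474.RZ

namespace Pool.Agent.H396.RZ.FIN

open Pool.Agent.H396.RZ

theorem GG_cont {F : ℝ → ℝ} (hF : Continuous F) (δ : ℝ) : Continuous (GG F δ) := by
  unfold GG
  fun_prop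

theorem GG_sq (F : ℝ → ℝ) (δ x : ℝ) : GG F δ x ^ 2 = Real.exp (2 * (al δ * x)) * F x ^ 2 := by
  unfold GG
  rw [mul_pow, ← Real.exp_nat_mul]
  norm_num

theorem lower {F : ℝ → ℝ} {c C δ0 : ℝ} (h : Hyp F c C δ0) {K δ : ℝ}
    (hK : 32 * C * Real.exp (-K) ≤ c / 4) (hδ : 0 < δ) (hδ0 : δ ≤ δ0)
    (hC0 : (∫ x, GG F δ0 x ^ 2) ≤ c / 4 * δ ^ (-(9 / 2) : ℝ)) :
    c / 2 * δ ^ (-(9 / 2) : ℝ) ≤ ∫ x in (0:ℝ)..(K / δ), GG F δ x ^ 2 := by
  have i2 := h.i2 δ hδ hδ0
  have i20 := h.i2 δ0 h.h0 le_rfl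
  have i2h := h.i2 (δ / 2) (by linarith) (by linarith)
  have e1 := intervalIntegral.integral_Iic_add_Ioi (b := (0:ℝ)) i2.integrableOn i2.integrableOn
  have e2 := intervalIntegral.integral_interval_add_Ioi (a := (0:ℝ)) (b := K / δ) i2.integrableOn
    i2.integrableOn
  have b1 : ∫ x in Iic (0:ℝ), GG F δ x ^ 2 ≤ ∫ x, GG F δ0 x ^ 2 := by
    refine (setIntegral_mono_on i2.integrableOn i20.integrableOn measurableSet_Iic ?_).trans
      (setIntegral_le_integral i20 (Eventually.of_forall fun x => by positivity))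
    intro x hx
    have hx0 : x ≤ 0 := hx
    rw [GG_sq, GG_sq]
    refine mul_le_mul_of_nonneg_right (Real.exp_le_exp.2 ?_) (by positivity)
    unfold al
    nlinarith
  have b2 : ∫ x in Ioi (K / δ), GG F δ x ^ 2 ≤ Real.exp (-K) * ∫ x, GG F (δ / 2) x ^ 2 := by
    have b3 : ∫ x in Ioi (K / δ), GG F δ x ^ 2 ≤
        ∫ x in Ioi (K / δ), Real.exp (-K) * GG F (δ / 2) x ^ 2 := by
      refine setIntegral_mono_on i2.integrableOn (i2h.integrableOn.const_mul _) measurableSet_Ioi ?_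
      intro x hx
      have hx0 : K / δ < x := hx
      have hx1 : K ≤ δ * x := by
        rw [div_lt_iff₀ hδ] at hx0
        linarith
      rw [GG_sq, GG_sq, ← mul_assoc (Real.exp (-K)), ← Real.exp_add]
      refine mul_le_mul_of_nonneg_right (Real.exp_le_exp.2 ?_) (by positivity)
      unfold al
      linarith
    rw [integral_const_mul] at b3
    refine b3.trans (mul_le_mul_of_nonneg_left ?_ (Real.exp_pos _).le)
    exact setIntegral_le_integral i2h (Eventually.of_forall fun x => by positivity)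
  have b4 := h.up (δ / 2) (by linarith) (by linarith)
  have b5 : (δ / 2) ^ (-(9 / 2) : ℝ) ≤ 32 * δ ^ (-(9 / 2) : ℝ) := by
    rw [Real.div_rpow hδ.le (by norm_num), div_le_iff₀ (by positivity)]
    have h1 : 1 / 32 ≤ (2:ℝ) ^ (-(9 / 2) : ℝ) := by
      have h2 : (2:ℝ) ^ (-(5:ℝ)) ≤ (2:ℝ) ^ (-(9 / 2) : ℝ) :=
        Real.rpow_le_rpow_of_exponent_le (by norm_num) (by norm_num)
      refine le_trans (le_of_eq ?_) h2
      rw [Real.rpow_neg (by norm_num)]
      norm_num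
    have h3 : 0 < δ ^ (-(9 / 2) : ℝ) := Real.rpow_pos_of_pos hδ _
    nlinarith
  have b6 : Real.exp (-K) * ∫ x, GG F (δ / 2) x ^ 2 ≤ c / 4 * δ ^ (-(9 / 2) : ℝ) := by
    have h3 : 0 < δ ^ (-(9 / 2) : ℝ) := Real.rpow_pos_of_pos hδ _
    have hCp := h.hC
    calc Real.exp (-K) * ∫ x, GG F (δ / 2) x ^ 2
        ≤ Real.exp (-K) * (C * (32 * δ ^ (-(9 / 2) : ℝ))) := by
          refine mul_le_mul_of_nonneg_left (b4.trans ?_) (Real.exp_pos _).le
          exact mul_le_mul_of_nonneg_left b5 hCp.le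
      _ = (32 * C * Real.exp (-K)) * δ ^ (-(9 / 2) : ℝ) := by ring
      _ ≤ c / 4 * δ ^ (-(9 / 2) : ℝ) := mul_le_mul_of_nonneg_right hK h3.le
  have b7 := h.lo δ hδ hδ0
  linarith

theorem eventually_y (δ0 C3 : ℝ) (hC3 : 0 < C3) :
    ∃ y0 : ℝ, ∀ y : ℝ, y0 ≤ y → 1 ≤ Real.log y ∧ C3 * Real.log y ≤ y ^ (1 / 4 : ℝ) ∧
      1 / δ0 ≤ y ∧ 1 ≤ y := by
  have h1 : ∀ᶠ y : ℝ in atTop, ‖Real.log y‖ ≤ (1 / C3) * ‖y ^ (1 / 4 : ℝ)‖ :=
    (isLittleO_log_rpow_atTop (by norm_num : (0:ℝ) < 1 / 4)).bound (by positivity)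
  have h2 : ∀ᶠ y : ℝ in atTop, 1 ≤ Real.log y := Real.tendsto_log_atTop.eventually_ge_atTop 1
  have h3 : ∀ᶠ y : ℝ in atTop, 1 / δ0 ≤ y := eventually_ge_atTop _
  have h4 : ∀ᶠ y : ℝ in atTop, (1:ℝ) ≤ y := eventually_ge_atTop _
  obtain ⟨y0, hy0⟩ := (((h1.and h2).and h3).and h4).exists_forall_of_atTop
  refine ⟨y0, fun y hy => ?_⟩
  obtain ⟨⟨⟨a1, a2⟩, a3⟩, a4⟩ := hy0 y hy
  refine ⟨a2, ?_, a3, a4⟩
  rw [Real.norm_of_nonneg (by linarith), Real.norm_of_nonneg (by positivity)] at a1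
  rw [one_div, inv_mul_eq_div, le_div_iff₀ hC3] at a1
  linarith

/-- the arithmetic at the end -/
theorem arith {u l L K C c c1 a0 a1 C1 H Mr b : ℝ} (hu : 1 ≤ u) (hl : 0 < l) (hL : l ^ 2 = L)
    (hL1 : 1 ≤ L) (hc : 0 < c) (hC : 0 < C) (ha0 : 0 < a0) (ha0' : 4 * C ≤ c * a0 ^ 2)
    (hc1 : c1 = c / (4 * a0)) (ha1 : a1 = 4 * C / c1) (hC1 : 0 < C1) (hC1' : 8 * K * a1 ≤ c1 * C1)
    (hH : H = C1 * L) (hM : Mr * (C1 * L) ≤ 2 * K * u ^ 4)
    (hE : 2 * (l * (2 * H + C)) ≤ c1 * u ^ 2)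
    (h : (c / 2 * u ^ 18 - C * u ^ 32 * L / (a0 * (u ^ 7 * l)) ^ 2) / (a0 * (u ^ 7 * l)) ≤
      (2 * H * u ^ 9 + C * u ^ 18 / u ^ 9) / 2 +
      (Mr * (a1 * (u ^ 7 * l)) + C * H * u ^ 18 / H / (a1 * (u ^ 7 * l))) / 2 +
      (b * (H * (a1 * (u ^ 7 * l))) + C * u ^ 18 / (a1 * (u ^ 7 * l))) / 2) :
    3 * c1 / (4 * C1 * a1) * u ^ 4 / L ^ 2 ≤ b := by
  have hu0 : 0 < u := by linarith
  have hc1p : 0 < c1 := by rw [hc1]; positivity
  have ha1p : 0 < a1 := by rw [ha1]; positivity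
  have hL0 : 0 < L := by linarith
  have hHp : 0 < H := by rw [hH]; positivity
  obtain ⟨P, hP⟩ : ∃ P, P = u ^ 11 / l := ⟨_, rfl⟩
  have hPp : 0 < P := by rw [hP]; positivity
  have t1 : c1 * P ≤ (c / 2 * u ^ 18 - C * u ^ 32 * L / (a0 * (u ^ 7 * l)) ^ 2) /
      (a0 * (u ^ 7 * l)) := by
    have e1 : C * u ^ 32 * L / (a0 * (u ^ 7 * l)) ^ 2 = C / a0 ^ 2 * u ^ 18 := by
      rw [← hL]
      field_simp
    have e2 : C / a0 ^ 2 ≤ c / 4 := by
      rw [div_le_iff₀ (by positivity)]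
      linarith
    rw [e1, le_div_iff₀ (by positivity), hP, hc1]
    have e3 : c / (4 * a0) * (u ^ 11 / l) * (a0 * (u ^ 7 * l)) = c / 4 * u ^ 18 := by
      field_simp
    rw [e3]
    have e4 : C / a0 ^ 2 * u ^ 18 ≤ c / 4 * u ^ 18 :=
      mul_le_mul_of_nonneg_right e2 (by positivity)
    linarith
  have t2 : (2 * H * u ^ 9 + C * u ^ 18 / u ^ 9) / 2 ≤ c1 / 4 * P := by
    have e1 : C * u ^ 18 / u ^ 9 = C * u ^ 9 := by field_simp
    rw [e1, hP]
    rw [show c1 / 4 * (u ^ 11 / l) = (c1 * u ^ 11 / 4) / l by ring, le_div_iff₀ hl]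
    have e2 := mul_le_mul_of_nonneg_right hE (by positivity : 0 ≤ u ^ 9)
    calc (2 * H * u ^ 9 + C * u ^ 9) / 2 * l = (2 * (l * (2 * H + C)) * u ^ 9) / 4 := by ring
      _ ≤ (c1 * u ^ 2 * u ^ 9) / 4 := by linarith
      _ = c1 * u ^ 11 / 4 := by ring
  have e5 : C / a1 = c1 / 4 := by
    rw [ha1]
    field_simp
  have t3 : C * H * u ^ 18 / H / (a1 * (u ^ 7 * l)) = c1 / 4 * P := by
    rw [← e5, hP]
    field_simp
  have t4 : C * u ^ 18 / (a1 * (u ^ 7 * l)) = c1 / 4 * P := by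
    rw [← e5, hP]
    field_simp
  have t5 : Mr * (a1 * (u ^ 7 * l)) ≤ c1 / 4 * P := by
    rw [hP, show c1 / 4 * (u ^ 11 / l) = (c1 * u ^ 11 / 4) / l by ring, le_div_iff₀ hl]
    have e1 := mul_le_mul_of_nonneg_right hM (by positivity : 0 ≤ a1 * u ^ 7)
    have e2 : Mr * (a1 * (u ^ 7 * l)) * l * C1 = Mr * (C1 * L) * (a1 * u ^ 7) := by
      rw [← hL]; ring
    have e3 := mul_le_mul_of_nonneg_right hC1' (by positivity : 0 ≤ u ^ 11 / 4)
    have e4 : Mr * (a1 * (u ^ 7 * l)) * l * C1 ≤ c1 * u ^ 11 / 4 * C1 := by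
      rw [e2]
      calc Mr * (C1 * L) * (a1 * u ^ 7) ≤ 2 * K * u ^ 4 * (a1 * u ^ 7) := e1
        _ = 8 * K * a1 * (u ^ 11 / 4) := by ring
        _ ≤ c1 * C1 * (u ^ 11 / 4) := e3
        _ = c1 * u ^ 11 / 4 * C1 := by ring
    exact le_of_mul_le_mul_right e4 hC1
  rw [t3, t4] at h
  have t6 : 3 / 4 * (c1 * P) ≤ b * (H * (a1 * (u ^ 7 * l))) := by linarith
  rw [div_le_iff₀ (by positivity)]
  have hq : 0 < C1 * a1 * (u ^ 7 * l ^ 3) := by positivity
  have t7 : 3 * c1 / (4 * C1 * a1) * u ^ 4 * (u ^ 7 * a1 * C1 / l) ≤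
      b * L ^ 2 * (u ^ 7 * a1 * C1 / l) := by
    have e1 : 3 * c1 / (4 * C1 * a1) * u ^ 4 * (u ^ 7 * a1 * C1 / l) = 3 / 4 * (c1 * P) := by
      rw [hP]
      field_simp
    have e2 : b * L ^ 2 * (u ^ 7 * a1 * C1 / l) = b * (H * (a1 * (u ^ 7 * l))) := by
      rw [hH, ← hL]
      field_simp
    rw [e1, e2]
    exact t6
  exact le_of_mul_le_mul_right t7 (by positivity)

theorem t_FIN : S_FIN := by
  intro F c C δ0 h
  have hc := h.hc
  have hC := h.hC
  have hδ00 := h.h0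
  obtain ⟨K, hK⟩ : ∃ K, K = 128 * C / c + 1 := ⟨_, rfl⟩
  have hK0 : 0 < K := by rw [hK]; positivity
  have hK1 : 1 ≤ K := by rw [hK]; linarith [(by positivity : 0 ≤ 128 * C / c)]
  have hKe : 32 * C * Real.exp (-K) ≤ c / 4 := by
    rw [Real.exp_neg, ← div_eq_mul_inv, div_le_iff₀ (Real.exp_pos K)]
    have h1 : K + 1 ≤ Real.exp K := Real.add_one_le_exp K
    have h2 : 128 * C / c ≤ Real.exp K := by linarith
    rw [div_le_iff₀ hc] at h2
    linarith
  obtain ⟨a0, ha0⟩ : ∃ a0, a0 = 4 * C / c + 1 := ⟨_, rfl⟩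
  have ha0p : 0 < a0 := by rw [ha0]; positivity
  have ha0' : 4 * C ≤ c * a0 ^ 2 := by
    have h1 : 0 ≤ 4 * C / c := by positivity
    have h2 : 4 * C / c ≤ a0 ^ 2 := by
      rw [ha0]
      exact (by linarith : 4 * C / c ≤ 4 * C / c + 1).trans (le_self_pow₀ (by linarith) (by norm_num))
    rw [div_le_iff₀ hc] at h2
    linarith
  obtain ⟨c1, hc1⟩ : ∃ c1, c1 = c / (4 * a0) := ⟨_, rfl⟩
  have hc1p : 0 < c1 := by rw [hc1]; positivity
  obtain ⟨a1, ha1⟩ : ∃ a1, a1 = 4 * C / c1 := ⟨_, rfl⟩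
  have ha1p : 0 < a1 := by rw [ha1]; positivity
  obtain ⟨C1, hC1⟩ : ∃ C1, C1 = 8 * K * a1 / c1 + 1 := ⟨_, rfl⟩
  have hC11 : 1 ≤ C1 := by rw [hC1]; linarith [(by positivity : 0 ≤ 8 * K * a1 / c1)]
  have hC1p : 0 < C1 := by linarith
  have hC1' : 8 * K * a1 ≤ c1 * C1 := by
    have h1 : 8 * K * a1 / c1 ≤ C1 := by linarith
    rw [div_le_iff₀ hc1p] at h1
    linarith
  obtain ⟨C2, hC2⟩ : ∃ C2, C2 = 2 * (2 * C1 + C) / c1 + 1 := ⟨_, rfl⟩
  have hC2p : 0 < C2 := by rw [hC2]; positivity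
  have hC2' : 2 * (2 * C1 + C) ≤ c1 * C2 ^ 2 := by
    have h1 : 0 ≤ 2 * (2 * C1 + C) / c1 := by positivity
    have h2 : 2 * (2 * C1 + C) / c1 ≤ C2 ^ 2 := by
      rw [hC2]
      exact (by linarith : 2 * (2 * C1 + C) / c1 ≤ 2 * (2 * C1 + C) / c1 + 1).trans
        (le_self_pow₀ (by linarith) (by norm_num))
    rw [div_le_iff₀ hc1p] at h2
    linarith
  obtain ⟨C00, hC00⟩ : ∃ C00, C00 = ∫ x, GG F δ0 x ^ 2 := ⟨_, rfl⟩
  have hC00p : 0 ≤ C00 := by
    rw [hC00]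
    exact integral_nonneg fun x => by positivity
  obtain ⟨C3, hC3⟩ : ∃ C3, C3 = C1 + C2 + 4 * C00 / c + 2 := ⟨_, rfl⟩
  have hq0 : 0 ≤ 4 * C00 / c := by positivity
  have hC3p : 0 < C3 := by rw [hC3]; positivity
  obtain ⟨y0, hy0⟩ := eventually_y δ0 C3 hC3p
  refine ⟨3 * c1 / (8 * C1 * a1 * K), 2 * K * y0, by positivity, ?_⟩
  intro T hT
  obtain ⟨y, hy⟩ : ∃ y, y = T / (2 * K) := ⟨_, rfl⟩
  have hTy : T = 2 * K * y := by rw [hy]; field_simp
  have hyy : y0 ≤ y := by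
    rw [hTy] at hT
    exact le_of_mul_le_mul_left hT (by positivity)
  obtain ⟨hlog, hlog2, hyδ, hy1⟩ := hy0 y hyy
  have hyp : 0 < y := by linarith
  obtain ⟨L, hL⟩ : ∃ L, L = Real.log y := ⟨_, rfl⟩
  rw [← hL] at hlog hlog2
  obtain ⟨u, hu⟩ : ∃ u, u = y ^ (1 / 4 : ℝ) := ⟨_, rfl⟩
  rw [← hu] at hlog2
  have hup : 0 < u := by rw [hu]; positivity
  have hu4 : u ^ 4 = y := by
    rw [hu, ← Real.rpow_natCast, ← Real.rpow_mul hyp.le]
    norm_num
  have hC3u : C3 ≤ u := le_trans (le_mul_of_one_le_right hC3p.le hlog) hlog2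
  have hu2 : 2 ≤ u := by linarith [hC3 ▸ hC3u]
  have hu1 : 1 ≤ u := by linarith
  obtain ⟨δ, hδ⟩ : ∃ δ, δ = y⁻¹ := ⟨_, rfl⟩
  have hδp : 0 < δ := by rw [hδ]; positivity
  have hδ0 : δ ≤ δ0 := by
    rw [hδ]
    rw [div_le_iff₀ hδ00] at hyδ
    rw [inv_le_iff_one_le_mul₀ hyp]
    linarith
  have h92 : δ ^ (-(9 / 2) : ℝ) = u ^ 18 := by
    rw [hδ, Real.rpow_neg (by positivity), Real.inv_rpow hyp.le, inv_inv, hu, ← Real.rpow_natCast,
      ← Real.rpow_mul hyp.le]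
    norm_num
  have h14 : δ ^ (-(1 / 4) : ℝ) = u := by
    rw [hδ, Real.rpow_neg (by positivity), Real.inv_rpow hyp.le, inv_inv, hu]
  have h8 : (δ ^ 8)⁻¹ = u ^ 32 := by
    rw [hδ, inv_pow, inv_inv, ← hu4]
    ring
  have hLd : Real.log (1 / δ) = L := by rw [hδ, one_div, inv_inv, hL]
  obtain ⟨H, hH⟩ : ∃ H, H = C1 * L := ⟨_, rfl⟩
  have hL0 : 0 < L := by linarith
  have hH1 : 1 ≤ H := by rw [hH]; exact one_le_mul_of_one_le_of_one_le hC11 hlog
  have hHp : 0 < H := by linarith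
  have hHu : H ≤ u := by
    refine le_trans ?_ hlog2
    rw [hH]
    refine mul_le_mul_of_nonneg_right ?_ hL0.le
    rw [hC3]
    linarith
  obtain ⟨X, hX⟩ : ∃ X, X = K / δ := ⟨_, rfl⟩
  have hXy : X = K * u ^ 4 := by rw [hX, hδ, hu4]; field_simp
  have hXp : 0 < X := by rw [hXy]; positivity
  have hXT : X = T / 2 := by rw [hXy, hu4, hTy]; ring
  obtain ⟨M, hM⟩ : ∃ M : ℕ, M = ⌈X / H⌉₊ := ⟨_, rfl⟩
  have hM1 : X / H ≤ M := by rw [hM]; exact Nat.le_ceil _
  have hM2 : (M : ℝ) < X / H + 1 := by rw [hM]; exact Nat.ceil_lt_add_one (by positivity)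
  have hXM : X ≤ M * H := by rwa [div_le_iff₀ hHp] at hM1
  have hMX : (M : ℝ) * H ≤ X + H := by
    have h1 := mul_le_mul_of_nonneg_right hM2.le hHp.le
    have h2 : (X / H + 1) * H = X + H := by field_simp
    linarith
  have hu3 : 3 * u ≤ u ^ 4 := by
    have h1 : (2:ℝ) ^ 3 ≤ u ^ 3 := pow_le_pow_left₀ (by norm_num) hu2 3
    have h2 : u ^ 4 = u ^ 3 * u := by ring
    rw [h2]
    exact mul_le_mul_of_nonneg_right (by linarith) hup.le
  have hu4X : u ^ 4 ≤ X := by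
    rw [hXy]
    exact le_mul_of_one_le_left (by positivity) hK1
  have hHX : H ≤ X := by linarith
  obtain ⟨l, hl⟩ : ∃ l, l = Real.sqrt L := ⟨_, rfl⟩
  have hlp : 0 < l := by rw [hl]; exact Real.sqrt_pos.2 hL0
  have hl2 : l ^ 2 = L := by rw [hl]; exact Real.sq_sqrt hL0.le
  have hlL : l ≤ L := by rw [hl]; exact Real.sqrt_le_self_iff.2 (Or.inr hlog)
  have hlow := lower h hKe hδp hδ0 (by
    rw [← hC00, h92]
    have h1 : 4 * C00 / c ≤ u := by
      have : 4 * C00 / c ≤ C3 := by rw [hC3]; linarith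
      linarith
    have h2 : u ≤ u ^ 18 := le_self_pow₀ hu1 (by norm_num)
    have h3 : 4 * C00 / c ≤ u ^ 18 := h1.trans h2
    rw [div_le_iff₀ hc] at h3
    linarith)
  rw [h92, ← hX] at hlow
  have b2 := h.up δ hδp hδ0
  rw [h92] at b2
  have b4 := h.m4 δ hδp hδ0
  rw [h8, hLd] at b4
  have bI := h.sl δ H hδp hδ0 hH1 (by rw [h14]; exact hHu)
  rw [h92] at bI
  obtain ⟨t, B, ht0, htH, hBM, hB, hcore⟩ := core (GG_cont h.cont δ) (h.i2 δ hδp hδ0)
    (h.i4 δ hδp hδ0) hHp hXp hXM (h.iI δ H hδp hδ0 hH1) hlow b2 b4 bI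
    (A := a0 * (u ^ 7 * l)) (A' := a1 * (u ^ 7 * l)) (A0 := u ^ 9) (by positivity) (by positivity)
    (by positivity)
  have hfin := arith (b := (B.card : ℝ)) (Mr := (M : ℝ)) hu1 hlp hl2 hlog hc hC ha0p ha0' hc1
    ha1 hC1p hC1' hH (by
      rw [← hH]
      have : X + H ≤ 2 * X := by linarith
      linarith [hXy]) (by
      have e1 : l * (2 * H + C) ≤ L ^ 2 * (2 * C1 + C) := by
        have e2 : 2 * H + C ≤ L * (2 * C1 + C) := by
          rw [hH]
          have e0 : C ≤ C * L := le_mul_of_one_le_right hC.le hlog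
          linarith
        calc l * (2 * H + C) ≤ L * (L * (2 * C1 + C)) :=
              mul_le_mul hlL e2 (by positivity) hL0.le
          _ = L ^ 2 * (2 * C1 + C) := by ring
      have e3 : C2 * L ≤ u := by
        refine le_trans (mul_le_mul_of_nonneg_right ?_ hL0.le) hlog2
        rw [hC3]
        linarith
      have e4 : (C2 * L) ^ 2 ≤ u ^ 2 := pow_le_pow_left₀ (by positivity) e3 2
      calc 2 * (l * (2 * H + C)) ≤ 2 * (L ^ 2 * (2 * C1 + C)) := by linarith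
        _ = L ^ 2 * (2 * (2 * C1 + C)) := by ring
        _ ≤ L ^ 2 * (c1 * C2 ^ 2) := mul_le_mul_of_nonneg_left hC2' (by positivity)
        _ = c1 * (C2 * L) ^ 2 := by ring
        _ ≤ c1 * u ^ 2 := mul_le_mul_of_nonneg_left e4 hc1p.le) hcore
  -- the points
  choose! p hp q hq hpq using hB
  obtain ⟨e, he⟩ : ∃ e : Fin B.card ↪o ℕ, e = B.orderEmbOfFin rfl := ⟨_, rfl⟩
  have heB : ∀ i, e i ∈ B := fun i => by rw [he]; exact B.orderEmbOfFin_mem rfl i
  have hsgn : ∀ i ∈ B, F (p i) < 0 ∧ 0 < F (q i) := by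
    intro i hi
    have h1 := hpq i hi
    unfold GG at h1
    constructor
    · by_contra hcon
      push Not at hcon
      have : 0 ≤ Real.exp (al δ * p i) * F (p i) := mul_nonneg (Real.exp_pos _).le hcon
      linarith [h1.1]
    · exact (mul_pos_iff_of_pos_left (Real.exp_pos _)).1 h1.2
  refine ⟨B.card, fun i => min (p (e i)) (q (e i)), fun i => max (p (e i)) (q (e i)), ?_, ?_, ?_⟩
  · refine le_trans ?_ hfin
    have hTp : 0 < T := by rw [hTy]; positivity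
    have hyT : y ≤ T := by
      rw [hTy]
      exact le_mul_of_one_le_left hyp.le (by linarith)
    have hLT : L ≤ Real.log T := by
      rw [hL]
      exact Real.log_le_log hyp hyT
    have e1 : 3 * c1 / (4 * C1 * a1) * u ^ 4 = 3 * c1 / (8 * C1 * a1 * K) * T := by
      rw [hu4, hTy]
      field_simp
      ring
    rw [e1]
    exact div_le_div_of_nonneg_left (by positivity) (by positivity)
      (pow_le_pow_left₀ hL0.le hLT 2)
  · intro i
    have m1 := hp (e i) (heB i)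
    have m2 := hq (e i) (heB i)
    have s := hsgn (e i) (heB i)
    have hei : (0:ℝ) ≤ (e i : ℝ) := Nat.cast_nonneg _
    have hiM : (e i : ℝ) + 1 ≤ M := by exact_mod_cast hBM (e i) (heB i)
    have hlo : 0 < t + ((e i : ℝ) + 1) * H := by positivity
    have hhi : t + ((e i : ℝ) + 2) * H ≤ T := by
      have h1 : ((e i : ℝ) + 1) * H ≤ M * H := mul_le_mul_of_nonneg_right hiM hHp.le
      have h2 : 3 * H ≤ X := by linarith
      linarith
    have hne : p (e i) ≠ q (e i) := by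
      intro hcon
      have h1 := s.1
      rw [hcon] at h1
      linarith [s.2]
    refine ⟨?_, ?_, ?_, ?_⟩
    · exact lt_min (lt_of_lt_of_le hlo m1.1) (lt_of_lt_of_le hlo m2.1)
    · exact min_lt_max.2 hne
    · exact max_le (m1.2.trans hhi) (m2.2.trans hhi)
    · rcases le_total (p (e i)) (q (e i)) with hpq' | hpq'
      · simp only [min_eq_left hpq', max_eq_right hpq']
        exact mul_neg_of_neg_of_pos s.1 s.2
      · simp only [min_eq_right hpq', max_eq_left hpq']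
        exact mul_neg_of_pos_of_neg s.2 s.1
  · intro i j hij
    have m1 := hp (e i) (heB i)
    have m2 := hq (e i) (heB i)
    have n1 := hp (e j) (heB j)
    have n2 := hq (e j) (heB j)
    have h1 : e i < e j := e.strictMono hij
    have h2 : (e i : ℝ) + 1 ≤ (e j : ℝ) := by exact_mod_cast h1
    have h3 : t + ((e i : ℝ) + 2) * H ≤ t + ((e j : ℝ) + 1) * H := by
      have h4 : ((e i : ℝ) + 2) * H ≤ ((e j : ℝ) + 1) * H :=
        mul_le_mul_of_nonneg_right (by linarith) hHp.le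
      linarith
    exact max_le (le_min (m1.2.trans (h3.trans n1.1)) (m1.2.trans (h3.trans n2.1)))
      (le_min (m2.2.trans (h3.trans n1.1)) (m2.2.trans (h3.trans n2.1)))

end Pool.Agent.H396.RZ.FIN
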